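import Mathlib

/-!
Fewer than cov(meager) many dense requirements on a sequence of natural numbers can be met
simultaneously. The cardinal bound is expressed through families of meagre sets of reals.
-/

set_option autoImplicit false

open Set Cardinal

namespace Pool.Agent.H76

/-- `J` has fewer members than cov(meager): no `J`-indexed family of meagre sets of reals
covers the real line. -/
def CovOK (J : Type) : Prop :=
  ∀ M : J → Set ℝ, (∀ j, IsMeagre (M j)) → (⋃ j, M j) ≠ Set.univ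

lemma CovOK.of_injective {J J' : Type} (f : J → J') (hf : Function.Injective f)
    (h : CovOK J') : CovOK J := by
  intro M hM hcov
  refine h (fun j' => {x | ∃ j, f j = j' ∧ x ∈ M j}) ?_ ?_
  · intro j'
    by_cases hj : ∃ j, f j = j'
    · obtain ⟨j, rfl⟩ := hj
      refine (hM j).mono ?_
      rintro x ⟨i, hi, hx⟩
      rwa [← hf hi]
    · refine IsMeagre.empty.mono ?_
      rintro x ⟨i, hi, hx⟩
      exact (hj ⟨i, hi⟩).elim
  · apply Set.eq_univ_of_forall
    intro x
    have hx : x ∈ ⋃ j, M j := by rw [hcov]; trivial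
    obtain ⟨j, hj⟩ := Set.mem_iUnion.1 hx
    exact Set.mem_iUnion.2 ⟨f j, j, rfl, hj⟩

lemma CovOK.of_countable (J : Type) [Countable J] : CovOK J := by
  intro M hM hcov
  have h1 : IsMeagre (⋃ j, M j) := isMeagre_iUnion hM
  rw [hcov] at h1
  exact not_isMeagre_of_isOpen isOpen_univ ⟨(0 : ℝ), trivial⟩ h1

lemma CovOK.of_card_le {J J' : Type} (hc : #J ≤ max ℵ₀ #J') (h : CovOK J') : CovOK J := by
  rcases le_max_iff.1 hc with h1 | h1
  · have : Countable J := Cardinal.mk_le_aleph0_iff.1 h1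
    exact CovOK.of_countable J
  · obtain ⟨f⟩ := Cardinal.le_def _ _ |>.1 h1
    exact CovOK.of_injective f f.injective h

lemma CovOK.of_card_le_max {J J₁ J₂ : Type} (hc : #J ≤ max ℵ₀ (max #J₁ #J₂))
    (h₁ : CovOK J₁) (h₂ : CovOK J₂) : CovOK J := by
  rcases le_total #J₁ #J₂ with h | h
  · rw [max_eq_right h] at hc
    exact CovOK.of_card_le hc h₂
  · rw [max_eq_left h] at hc
    exact CovOK.of_card_le hc h₁

/-- The open dyadic interval of level `n` and index `a`. -/
def dy (n : ℕ) (a : ℤ) : Set ℝ := {x | (a : ℝ) < 2 ^ n * x ∧ 2 ^ n * x < a + 1}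

lemma dy_isOpen (n : ℕ) (a : ℤ) : IsOpen (dy n a) := by
  have h1 : Continuous fun x : ℝ => 2 ^ n * x := by fun_prop
  exact (isOpen_lt continuous_const h1).inter (isOpen_lt h1 continuous_const)

lemma dy_nonempty (n : ℕ) (a : ℤ) : (dy n a).Nonempty := by
  refine ⟨(a + 1 / 2) / 2 ^ n, ?_, ?_⟩
  · rw [mul_div_cancel₀ _ (by positivity)]; linarith
  · rw [mul_div_cancel₀ _ (by positivity)]; linarith

lemma dy_floor {n : ℕ} {a : ℤ} {x : ℝ} (hx : x ∈ dy n a) : ⌊2 ^ n * x⌋ = a :=
  Int.floor_eq_iff.2 ⟨hx.1.le, hx.2⟩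

lemma dy_floor_le {n k : ℕ} (hk : k ≤ n) {a : ℤ} {x : ℝ} (hx : x ∈ dy n a) :
    ⌊2 ^ k * x⌋ = a / ((2 ^ (n - k) : ℕ) : ℤ) := by
  rw [← dy_floor hx, ← Int.floor_div_natCast]
  congr 1
  push_cast
  rw [eq_div_iff (by positivity), mul_right_comm, ← pow_add, Nat.add_sub_cancel' hk]

lemma dy_exists {V : Set ℝ} (hV : IsOpen V) (hne : V.Nonempty) : ∃ n a, dy n a ⊆ V := by
  obtain ⟨x, hx⟩ := hne
  obtain ⟨ε, hε, hball⟩ := Metric.isOpen_iff.1 hV x hx
  obtain ⟨n, hn⟩ := exists_pow_lt_of_lt_one hε (by norm_num : (1 / 2 : ℝ) < 1)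
  refine ⟨n, ⌊2 ^ n * x⌋, fun y hy => hball ?_⟩
  have h2 : (0 : ℝ) < 2 ^ n := by positivity
  have hn' : 1 < ε * 2 ^ n := by
    rw [one_div, inv_pow, inv_lt_iff_one_lt_mul₀ h2] at hn
    linarith
  have h3 := Int.floor_le (2 ^ n * x)
  have h4 := Int.lt_floor_add_one (2 ^ n * x)
  have h5 := hy.1
  have h6 := hy.2
  rw [Metric.mem_ball, Real.dist_eq, abs_lt]
  constructor
  · by_contra hc
    push Not at hc
    have : 2 ^ n * (y - x) ≤ 2 ^ n * (-ε) := mul_le_mul_of_nonneg_left hc h2.le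
    nlinarith
  · by_contra hc
    push Not at hc
    have : 2 ^ n * ε ≤ 2 ^ n * (y - x) := mul_le_mul_of_nonneg_left hc h2.le
    nlinarith

lemma dy_extend (z : ℕ → Prop) (n : ℕ) (a : ℤ) (m : ℕ) (hm : n ≤ m) :
    ∃ b : ℤ, dy m b ⊆ dy n a ∧
      ∀ x ∈ dy m b, ∀ k, n < k → k ≤ m → (Odd ⌊2 ^ k * x⌋ ↔ z k) := by
  induction m, hm using Nat.le_induction with
  | base => exact ⟨a, subset_rfl, fun x _ k h1 h2 => by omega⟩
  | succ m hm ih =>
    obtain ⟨b, hb1, hb2⟩ := ih
    have key : ∀ e : ℤ, 0 ≤ e → e ≤ 1 → dy (m + 1) (2 * b + e) ⊆ dy m b := by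
      intro e he0 he1 x hx
      have h1 := hx.1
      have h2 := hx.2
      have e0 : (0 : ℝ) ≤ e := by exact_mod_cast he0
      have e1 : (e : ℝ) ≤ 1 := by exact_mod_cast he1
      rw [pow_succ] at h1 h2
      push_cast at h1 h2
      constructor
      · nlinarith
      · nlinarith
    by_cases hz : z (m + 1)
    · refine ⟨2 * b + 1, (key 1 (by norm_num) le_rfl).trans hb1, ?_⟩
      intro x hx k hk1 hk2
      rcases Nat.lt_or_eq_of_le hk2 with h | h
      · exact hb2 x (key 1 (by norm_num) le_rfl hx) k hk1 (by omega)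
      · subst h
        rw [dy_floor hx]
        simp [hz]
    · refine ⟨2 * b + 0, (key 0 le_rfl (by norm_num)).trans hb1, ?_⟩
      intro x hx k hk1 hk2
      rcases Nat.lt_or_eq_of_le hk2 with h | h
      · exact hb2 x (key 0 le_rfl (by norm_num) hx) k hk1 (by omega)
      · subst h
        rw [dy_floor hx]
        simp [hz]

/-- The sequence of natural numbers read off from the binary digits of a real. -/
noncomputable def theta (x : ℝ) (i : ℕ) : ℕ := sInf {j | Odd ⌊2 ^ (Nat.pair i j) * x⌋}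

/-- A requirement on sequences that contains a dense open set. -/
def DenseReq (D : Set (ℕ → ℕ)) : Prop :=
  ∀ (x₀ : ℕ → ℕ) (L : ℕ), ∃ (x₁ : ℕ → ℕ) (L' : ℕ), (∀ i < L, x₁ i = x₀ i) ∧
    ∀ x : ℕ → ℕ, (∀ i < L', x i = x₁ i) → x ∈ D

lemma meagre_of_denseReq {D : Set (ℕ → ℕ)} (hD : DenseReq D) :
    IsMeagre {x : ℝ | theta x ∉ D} := by
  apply IsNowhereDense.isMeagre
  rw [IsNowhereDense]
  by_contra hne
  obtain ⟨n, a, hna⟩ := dy_exists isOpen_interior (Set.nonempty_iff_ne_empty.2 hne)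
  -- the bits up to level `n` are constant on `dy n a`
  obtain ⟨p, hp⟩ := dy_nonempty n a
  classical
  let z₀ : ℕ → Prop := fun k => if k ≤ n then Odd ⌊2 ^ k * p⌋ else True
  let x₀ : ℕ → ℕ := fun i => sInf {j | z₀ (Nat.pair i j)}
  obtain ⟨x₁, L', h1, h2⟩ := hD x₀ (n + 1)
  let z₁ : ℕ → Prop := fun k =>
    if (Nat.unpair k).1 < n + 1 then z₀ k else (Nat.unpair k).2 = x₁ (Nat.unpair k).1
  have hz₁ : ∀ i j, z₁ (Nat.pair i j) ↔ if i < n + 1 then z₀ (Nat.pair i j) else j = x₁ i := by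
    intro i j
    simp only [z₁, Nat.unpair_pair]
  -- a common bound on the relevant positions
  let N : ℕ := (Finset.range (L' + 1)).sup (fun i => Nat.pair i (x₁ i)) + n + 1
  obtain ⟨b, hb1, hb2⟩ := dy_extend z₁ n a N (by simp only [N]; omega)
  have hsub : dy N b ⊆ {x : ℝ | theta x ∈ D} := by
    intro x hx
    apply h2
    intro i hi
    have hbits : ∀ k ≤ N, (Odd ⌊2 ^ k * x⌋ ↔ z₁ k) := by
      intro k hk
      by_cases hkn : k ≤ n
      · have hx' := hb1 hx
        rw [dy_floor_le hkn hx', ← dy_floor_le hkn hp]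
        have : (Nat.unpair k).1 < n + 1 :=
          Nat.lt_succ_of_le ((Nat.unpair_left_le k).trans hkn)
        simp only [z₁, z₀, if_pos this, if_pos hkn]
      · exact hb2 x hx k (by omega) hk
    have hpos : ∀ j ≤ x₁ i, Nat.pair i j ≤ N := by
      intro j hj
      have h3 : Nat.pair i j ≤ Nat.pair i (x₁ i) := by
        rcases Nat.lt_or_eq_of_le hj with h | h
        · exact (Nat.pair_lt_pair_right i h).le
        · rw [h]
      have h4 : Nat.pair i (x₁ i) ≤ (Finset.range (L' + 1)).sup (fun i => Nat.pair i (x₁ i)) :=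
        Finset.le_sup (f := fun i => Nat.pair i (x₁ i)) (Finset.mem_range.2 (by omega))
      simp only [N]; omega
    -- the least true position of row `i` in `z₁` is `x₁ i`
    have hmin : z₁ (Nat.pair i (x₁ i)) ∧ ∀ j < x₁ i, ¬ z₁ (Nat.pair i j) := by
      by_cases hin : i < n + 1
      · have hx₁ : x₁ i = x₀ i := h1 i hin
        have hne : {j | z₀ (Nat.pair i j)}.Nonempty := by
          refine ⟨n + 1, ?_⟩
          have : ¬ Nat.pair i (n + 1) ≤ n := by
            have := Nat.right_le_pair i (n + 1)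
            omega
          simp [z₀, this]
        constructor
        · rw [hz₁, if_pos hin, hx₁]
          exact Nat.sInf_mem hne
        · intro j hj
          rw [hz₁, if_pos hin]
          rw [hx₁] at hj
          exact Nat.notMem_of_lt_sInf hj
      · constructor
        · rw [hz₁, if_neg hin]
        · intro j hj
          rw [hz₁, if_neg hin]
          omega
    show sInf {j | Odd ⌊2 ^ (Nat.pair i j) * x⌋} = x₁ i
    apply le_antisymm
    · apply Nat.sInf_le
      exact (hbits _ (hpos _ le_rfl)).2 hmin.1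
    · by_contra hlt
      push Not at hlt
      have hne : {j | Odd ⌊2 ^ (Nat.pair i j) * x⌋}.Nonempty :=
        ⟨x₁ i, (hbits _ (hpos _ le_rfl)).2 hmin.1⟩
      have hmem := Nat.sInf_mem hne
      exact hmin.2 _ hlt ((hbits _ (hpos _ hlt.le)).1 hmem)
  obtain ⟨q, hq⟩ := dy_nonempty N b
  have hq1 : q ∈ closure {x : ℝ | theta x ∉ D} := interior_subset (hna (hb1 hq))
  rw [mem_closure_iff] at hq1
  obtain ⟨r, hr1, hr2⟩ := hq1 _ (dy_isOpen N b) hq
  exact hr2 (hsub hr1)

/-- Fewer than cov(meager) many dense requirements have a common solution. -/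
theorem CovOK.exists_generic {J : Type} (hJ : CovOK J) (D : J → Set (ℕ → ℕ))
    (hD : ∀ j, DenseReq (D j)) : ∃ x : ℕ → ℕ, ∀ j, x ∈ D j := by
  have h := hJ (fun j => {x : ℝ | theta x ∉ D j}) (fun j => meagre_of_denseReq (hD j))
  obtain ⟨x, hx⟩ := (Set.ne_univ_iff_exists_notMem _).1 h
  refine ⟨theta x, fun j => ?_⟩
  by_contra hj
  exact hx (Set.mem_iUnion.2 ⟨j, hj⟩)

end Pool.Agent.H76
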