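import Mathlib
import Pool.Agent.H76.Cov

/-!
Generic strategies on a countable family of open sets of a Polish space.
-/

set_option autoImplicit false

open Set Cardinal Filter Topology

namespace Pool.Agent.H76

section

variable {X : Type} [MetricSpace X]

/-- A countable pi-base of nonempty open sets. -/
structure PiBase (B : ℕ → Set X) : Prop where
  isOpen : ∀ n, IsOpen (B n)
  nonempty : ∀ n, (B n).Nonempty
  exists_subset : ∀ U : Set X, IsOpen U → U.Nonempty → ∃ n, B n ⊆ U

/-- The move from `B s` to `B t` is allowed at stage `n`. -/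
def Move (B : ℕ → Set X) (n s t : ℕ) : Prop :=
  closure (B t) ⊆ B s ∧ ∀ x ∈ B t, ∀ y ∈ B t, dist x y ≤ (1 / 2 : ℝ) ^ n

/-- A strategy all of whose moves are allowed. -/
def ValidStrat (B : ℕ → Set X) (c : ℕ → ℕ → ℕ) : Prop := ∀ n s, Move B n s (c n s)

lemma PiBase.exists_move {B : ℕ → Set X} (hB : PiBase B) (n s : ℕ) : ∃ t, Move B n s t := by
  obtain ⟨x, hx⟩ := hB.nonempty s
  obtain ⟨ε, hε, hball⟩ := Metric.isOpen_iff.1 (hB.isOpen s) x hx
  have hp : (0 : ℝ) < (1 / 2 : ℝ) ^ n := by positivity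
  let δ : ℝ := min (ε / 2) ((1 / 2 : ℝ) ^ n / 2)
  have hδ : 0 < δ := by simp only [δ]; positivity
  obtain ⟨t, ht⟩ := hB.exists_subset (Metric.ball x δ) Metric.isOpen_ball
    ⟨x, Metric.mem_ball_self hδ⟩
  refine ⟨t, ?_, ?_⟩
  · refine (closure_mono ht).trans (Metric.closure_ball_subset_closedBall.trans ?_)
    refine (Metric.closedBall_subset_ball ?_).trans hball
    have : δ ≤ ε / 2 := min_le_left _ _
    linarith
  · intro y hy z hz
    have h1 := Metric.mem_ball.1 (ht hy)
    have h2 := Metric.mem_ball.1 (ht hz)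
    have h3 : δ ≤ (1 / 2 : ℝ) ^ n / 2 := min_le_right _ _
    have h4 := dist_triangle_right y z x
    linarith

/-- Limits of decreasing sequences of basic open sets. -/
lemma exists_limit [CompleteSpace X] {B : ℕ → Set X} (hB : PiBase B) (t : ℕ → ℕ)
    (h1 : ∀ m, closure (B (t (m + 1))) ⊆ B (t m))
    (h2 : ∀ m, ∀ x ∈ B (t (m + 1)), ∀ y ∈ B (t (m + 1)), dist x y ≤ (1 / 2 : ℝ) ^ m) :
    ∃ y, ∀ m, y ∈ B (t m) := by
  choose q hq using fun m => hB.nonempty (t (m + 1))
  have hmono : ∀ n m, n ≤ m → B (t m) ⊆ B (t n) := by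
    intro n m hnm
    induction m, hnm using Nat.le_induction with
    | base => exact subset_rfl
    | succ m _ ih => exact (subset_closure.trans (h1 m)).trans ih
  have hC : CauchySeq q := by
    refine cauchySeq_of_le_tendsto_0' (fun n => (1 / 2 : ℝ) ^ n) ?_ ?_
    · intro n m hnm
      exact h2 n _ (hq n) _ (hmono _ _ (by omega) (hq m))
    · exact tendsto_pow_atTop_nhds_zero_of_lt_one (by norm_num) (by norm_num)
  obtain ⟨y, hy⟩ := cauchySeq_tendsto_of_complete hC
  refine ⟨y, fun m => h1 m ?_⟩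
  refine mem_closure_of_tendsto hy ?_
  filter_upwards [eventually_ge_atTop m] with i hi
  exact hmono _ _ (by omega) (hq i)

/-- Shrink finitely many basic open sets simultaneously so that all boxes with pairwise
distinct indices avoid a given nowhere dense relation. -/
lemma PiBase.exists_shrink {B : ℕ → Set X} (hB : PiBase B) {k : ℕ} {F : Set (Fin k → X)}
    (hF : IsNowhereDense F) (T : Finset (Fin k → ℕ)) (hT : ∀ σ ∈ T, Function.Injective σ) :
    ∃ v : ℕ → ℕ, (∀ s, B (v s) ⊆ B s) ∧
      ∀ σ ∈ T, ∀ y : Fin k → X, (∀ a, y a ∈ B (v (σ a))) → y ∉ F := by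
  classical
  induction T using Finset.induction_on with
  | empty => exact ⟨id, fun s => subset_rfl, fun σ hσ => by simp at hσ⟩
  | insert σ T hσT ih =>
    obtain ⟨v, hv1, hv2⟩ := ih (fun τ hτ => hT τ (Finset.mem_insert_of_mem hτ))
    have hinj : Function.Injective σ := hT σ (Finset.mem_insert_self _ _)
    -- the box is not contained in the closure of `F`
    have hbox : IsOpen (Set.pi Set.univ fun a => B (v (σ a))) :=
      isOpen_set_pi Set.finite_univ fun a _ => hB.isOpen _
    have hne : (Set.pi Set.univ fun a => B (v (σ a))).Nonempty :=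
      Set.univ_pi_nonempty_iff.2 fun a => hB.nonempty _
    obtain ⟨p, hp1, hp2⟩ : ∃ p ∈ Set.pi Set.univ (fun a => B (v (σ a))), p ∉ closure F := by
      by_contra hcon
      push Not at hcon
      have : Set.pi Set.univ (fun a => B (v (σ a))) ⊆ interior (closure F) :=
        interior_maximal hcon hbox
      rw [hF] at this
      obtain ⟨q, hq⟩ := hne
      exact this hq
    have hopen : IsOpen (Set.pi Set.univ (fun a => B (v (σ a))) ∩ (closure F)ᶜ) :=
      hbox.inter isClosed_closure.isOpen_compl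
    obtain ⟨W, hW1, hW2⟩ := isOpen_pi_iff'.1 hopen p ⟨hp1, hp2⟩
    have hex : ∀ a, ∃ n, B n ⊆ W a ∩ B (v (σ a)) := fun a =>
      hB.exists_subset _ ((hW1 a).1.inter (hB.isOpen _)) ⟨p a, (hW1 a).2, hp1 a (Set.mem_univ a)⟩
    choose u hu using hex
    let v' : ℕ → ℕ := fun s => if h : ∃ a, σ a = s then u h.choose else v s
    have hv'σ : ∀ a, v' (σ a) = u a := by
      intro a
      have h : ∃ b, σ b = σ a := ⟨a, rfl⟩
      have h2 : h.choose = a := hinj h.choose_spec
      simp only [v', dif_pos h]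
      rw [h2]
    have hv'v : ∀ s, B (v' s) ⊆ B (v s) := by
      intro s
      by_cases h : ∃ a, σ a = s
      · obtain ⟨a, rfl⟩ := h
        rw [hv'σ]
        exact (hu a).trans Set.inter_subset_right
      · simp only [v', dif_neg h]
        exact subset_rfl
    refine ⟨v', fun s => (hv'v s).trans (hv1 s), ?_⟩
    intro τ hτ y hy
    rcases Finset.mem_insert.1 hτ with rfl | hτ
    · have hyW : y ∈ Set.pi Set.univ W := by
        intro a _
        have := hy a
        rw [hv'σ] at this
        exact (hu a this).1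
      exact fun hyF => (hW2 hyW).2 (subset_closure hyF)
    · exact hv2 τ hτ y (fun a => hv'v _ (hy a))

/-- The same with allowed moves. -/
lemma PiBase.exists_good {B : ℕ → Set X} (hB : PiBase B) {k : ℕ} {F : Set (Fin k → X)}
    (hF : IsNowhereDense F) (n e : ℕ) :
    ∃ v : ℕ → ℕ, (∀ s, Move B n s (v s)) ∧
      ∀ σ : Fin k → ℕ, Function.Injective σ → (∀ a, σ a ≤ e) →
        ∀ y : Fin k → X, (∀ a, y a ∈ B (v (σ a))) → y ∉ F := by
  classical
  let T : Finset (Fin k → ℕ) :=
    (Fintype.piFinset fun _ : Fin k => Finset.range (e + 1)).filter Function.Injective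
  obtain ⟨v, hv1, hv2⟩ := hB.exists_shrink hF T (fun σ hσ => (Finset.mem_filter.1 hσ).2)
  choose d hd using hB.exists_move n
  refine ⟨fun s => d (v s), fun s => ⟨(hd (v s)).1.trans (hv1 s), (hd (v s)).2⟩, ?_⟩
  intro σ hσ1 hσ2 y hy
  refine hv2 σ ?_ y (fun a => (subset_closure.trans (hd (v (σ a))).1) (hy a))
  refine Finset.mem_filter.2 ⟨Fintype.mem_piFinset.2 fun a => Finset.mem_range.2 ?_, hσ1⟩
  have := hσ2 a
  omega

/-- The bound on the indices reachable from stage `m` on, starting with indices at most `w`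
and with free moves to indices at most `h`. -/
def reach (c : ℕ → ℕ → ℕ) (h : ℕ → ℕ) (m w : ℕ) : ℕ → ℕ
  | 0 => max w (h m)
  | j + 1 => max ((Finset.range (reach c h m w j + 1)).sup (c (m + j))) (h (m + j + 1))

lemma le_reach_succ (c : ℕ → ℕ → ℕ) (h : ℕ → ℕ) (m w j s : ℕ) (hs : s ≤ reach c h m w j) :
    c (m + j) s ≤ reach c h m w (j + 1) :=
  le_max_of_le_left (Finset.le_sup (f := c (m + j)) (Finset.mem_range.2 (by omega)))

lemma le_reach_h (c : ℕ → ℕ → ℕ) (h : ℕ → ℕ) (m w j : ℕ) : h (m + j) ≤ reach c h m w j := by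
  cases j with
  | zero => exact le_max_right _ _
  | succ j => exact le_max_right _ _

/-- `F` is treated at some stage after `m`. -/
def Treats (B : ℕ → Set X) {k : ℕ} (F : Set (Fin k → X)) (h : ℕ → ℕ) (m w : ℕ)
    (c : ℕ → ℕ → ℕ) : Prop :=
  ∃ j, ∀ σ : Fin k → ℕ, Function.Injective σ → (∀ a, σ a ≤ reach c h m w j) →
    ∀ y : Fin k → X, (∀ a, y a ∈ B (c (m + j) (σ a))) → y ∉ F

open Classical in
/-- The strategy coded by a sequence, with default moves `d`. -/
noncomputable def strat (B : ℕ → Set X) (d : ℕ → ℕ → ℕ) (x : ℕ → ℕ) (n s : ℕ) : ℕ :=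
  if Move B n s (x (Nat.pair n s)) then x (Nat.pair n s) else d n s

lemma strat_valid {B : ℕ → Set X} {d : ℕ → ℕ → ℕ} (hd : ValidStrat B d) (x : ℕ → ℕ) :
    ValidStrat B (strat B d x) := by
  intro n s
  unfold strat
  split_ifs with h
  · exact h
  · exact hd n s

lemma reach_congr {c c' : ℕ → ℕ → ℕ} (h : ℕ → ℕ) (m w j : ℕ)
    (hc : ∀ i < j, ∀ s ≤ reach c h m w i, c' (m + i) s = c (m + i) s) :
    ∀ i ≤ j, reach c' h m w i = reach c h m w i := by
  intro i hi
  induction i with
  | zero => rfl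
  | succ i ih =>
    have ih' := ih (by omega)
    simp only [reach]
    rw [ih']
    congr 1
    apply Finset.sup_congr rfl
    intro s hs
    exact hc i (by omega) s (by have := Finset.mem_range.1 hs; omega)

lemma denseReq_treats {B : ℕ → Set X} (hB : PiBase B) {d : ℕ → ℕ → ℕ} (_hd : ValidStrat B d)
    {k : ℕ} {F : Set (Fin k → X)} (hF : IsNowhereDense F) (h : ℕ → ℕ) (m w : ℕ) :
    DenseReq {x | Treats B F h m w (strat B d x)} := by
  classical
  intro x₀ L
  let c₀ := strat B d x₀
  obtain ⟨v, hv1, hv2⟩ := hB.exists_good hF (m + L) (reach c₀ h m w L)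
  let x₁ : ℕ → ℕ := fun i => if (Nat.unpair i).1 = m + L then v (Nat.unpair i).2 else x₀ i
  let e : ℕ := (Finset.range (L + 1)).sup (reach c₀ h m w)
  have he : ∀ i ≤ L, reach c₀ h m w i ≤ e := fun i hi =>
    Finset.le_sup (f := reach c₀ h m w) (Finset.mem_range.2 (by omega))
  have hpair : ∀ i ≤ L, ∀ s ≤ e, Nat.pair (m + i) s < Nat.pair (m + L) e + 1 := by
    intro i hi s hs
    have h1 : Nat.pair (m + i) s ≤ Nat.pair (m + L) s := by
      rcases Nat.lt_or_eq_of_le hi with h | h
      · exact (Nat.pair_lt_pair_left s (by omega)).le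
      · rw [h]
    have h2 : Nat.pair (m + L) s ≤ Nat.pair (m + L) e := by
      rcases Nat.lt_or_eq_of_le hs with h | h
      · exact (Nat.pair_lt_pair_right _ h).le
      · rw [h]
    omega
  refine ⟨x₁, Nat.pair (m + L) e + 1, ?_, ?_⟩
  · intro i hi
    have : (Nat.unpair i).1 ≠ m + L := by
      have := Nat.unpair_left_le i
      omega
    simp only [x₁, if_neg this]
  · intro x hx
    have hc : ∀ i < L, ∀ s ≤ reach c₀ h m w i, strat B d x (m + i) s = c₀ (m + i) s := by
      intro i hi s hs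
      have h1 : x (Nat.pair (m + i) s) = x₀ (Nat.pair (m + i) s) := by
        rw [hx _ (hpair i hi.le s (hs.trans (he i hi.le)))]
        have : (Nat.unpair (Nat.pair (m + i) s)).1 ≠ m + L := by
          rw [Nat.unpair_pair]; simp only; omega
        simp only [x₁, if_neg this]
      simp only [c₀, strat, h1]
    have hreach := reach_congr h m w L hc L le_rfl
    refine ⟨L, ?_⟩
    intro σ hσ1 hσ2 y hy
    rw [hreach] at hσ2
    refine hv2 σ hσ1 hσ2 y ?_
    intro a
    have h1 : x (Nat.pair (m + L) (σ a)) = v (σ a) := by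
      rw [hx _ (hpair L le_rfl _ ((hσ2 a).trans (he L le_rfl)))]
      simp only [x₁, Nat.unpair_pair, if_true]
    have h2 : strat B d x (m + L) (σ a) = v (σ a) := by
      unfold strat
      rw [h1, if_pos (hv1 _)]
    have := hy a
    rwa [h2] at this

/-- Generic valid strategies. -/
theorem exists_generic_strat {B : ℕ → Set X} (hB : PiBase B) {J : Type} (hJ : CovOK J)
    (k : J → ℕ) (F : ∀ j, Set (Fin (k j) → X)) (hF : ∀ j, IsNowhereDense (F j))
    (h : J → ℕ → ℕ) (m w : J → ℕ) :
    ∃ c : ℕ → ℕ → ℕ, ValidStrat B c ∧ ∀ j, Treats B (F j) (h j) (m j) (w j) c := by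
  choose d hd using hB.exists_move
  have hd' : ValidStrat B d := fun n s => hd n s
  obtain ⟨x, hx⟩ := hJ.exists_generic
    (fun j => {x | Treats B (F j) (h j) (m j) (w j) (strat B d x)})
    (fun j => denseReq_treats hB hd' (hF j) (h j) (m j) (w j))
  exact ⟨strat B d x, strat_valid hd' x, hx⟩

end

end Pool.Agent.H76
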