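import Mathlib
import Pool.Agent.H76.Strategy

/-!
Free sets when there is an unbounded family of functions with fewer than cov(meager) members.
-/

set_option autoImplicit false

open Set Cardinal Filter Topology

namespace Pool.Agent.H76

section

variable {X : Type} [MetricSpace X]

lemma PiBase.exists_avoid {B : ℕ → Set X} (hB : PiBase B) {K : ℕ → Set X}
    (hK : ∀ i, IsNowhereDense (K i)) (s n : ℕ) :
    ∃ t, B t ⊆ B s ∧ ∀ i ≤ n, Disjoint (B t) (K i) := by
  have one : ∀ s i, ∃ t, B t ⊆ B s ∧ Disjoint (B t) (K i) := by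
    intro s i
    obtain ⟨p, hp1, hp2⟩ : ∃ p ∈ B s, p ∉ closure (K i) := by
      by_contra hcon
      push Not at hcon
      have : B s ⊆ interior (closure (K i)) := interior_maximal hcon (hB.isOpen s)
      rw [hK i] at this
      obtain ⟨q, hq⟩ := hB.nonempty s
      exact this hq
    obtain ⟨t, ht⟩ := hB.exists_subset (B s ∩ (closure (K i))ᶜ)
      ((hB.isOpen s).inter isClosed_closure.isOpen_compl) ⟨p, hp1, hp2⟩
    refine ⟨t, ht.trans Set.inter_subset_left, ?_⟩
    rw [Set.disjoint_left]
    intro x hx hxK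
    exact (ht hx).2 (subset_closure hxK)
  induction n with
  | zero =>
    obtain ⟨t, h1, h2⟩ := one s 0
    exact ⟨t, h1, fun i hi => by obtain rfl : i = 0 := by omega
                                 exact h2⟩
  | succ n ih =>
    obtain ⟨t, h1, h2⟩ := ih
    obtain ⟨t', h3, h4⟩ := one t (n + 1)
    refine ⟨t', h3.trans h1, fun i hi => ?_⟩
    rcases Nat.lt_or_eq_of_le hi with h | h
    · exact (h2 i (by omega)).mono_left h3
    · rw [h]; exact h4

/-- A meagre set is covered by a sequence of nowhere dense sets. -/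
lemma IsMeagre_exists_seq {Y : Type} [TopologicalSpace Y] {M : Set Y} (hM : IsMeagre M) :
    ∃ K : ℕ → Set Y, (∀ i, IsNowhereDense (K i)) ∧ M ⊆ ⋃ i, K i := by
  obtain ⟨S, h1, h2, h3⟩ := isMeagre_iff_countable_union_isNowhereDense.1 hM
  rcases S.eq_empty_or_nonempty with rfl | hne
  · refine ⟨fun _ => ∅, fun _ => isNowhereDense_empty, ?_⟩
    simpa using h3
  · obtain ⟨f, rfl⟩ := h2.exists_eq_range hne
    exact ⟨f, fun i => h1 _ ⟨i, rfl⟩, by rwa [Set.sUnion_range] at h3⟩

/-- A minimal positive distance between the values of an injective finite tuple. -/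
lemma exists_pow_lt_dist {k : ℕ} (y : Fin k → X) (hy : Function.Injective y) :
    ∃ N : ℕ, ∀ n ≥ N, ∀ a b, a ≠ b → (1 / 2 : ℝ) ^ n < dist (y a) (y b) := by
  have h : ∀ p : Fin k × Fin k, ∀ᶠ n : ℕ in atTop,
      p.1 ≠ p.2 → (1 / 2 : ℝ) ^ n < dist (y p.1) (y p.2) := by
    intro p
    by_cases hp : p.1 = p.2
    · exact Eventually.of_forall fun n h => (h hp).elim
    · have hd : 0 < dist (y p.1) (y p.2) := dist_pos.2 fun h => hp (hy h)
      have := (tendsto_pow_atTop_nhds_zero_of_lt_one (by norm_num : (0 : ℝ) ≤ 1 / 2)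
        (by norm_num : (1 / 2 : ℝ) < 1)).eventually_lt_const hd
      filter_upwards [this] with n hn _ using hn
  have h2 := eventually_all.2 h
  obtain ⟨N, hN⟩ := eventually_atTop.1 h2
  exact ⟨N, fun n hn a b hab => hN n hn (a, b) hab⟩

/-- A run of the strategy `c` with free moves bounded by `h`. -/
def IsRun (B : ℕ → Set X) (c : ℕ → ℕ → ℕ) (h : ℕ → ℕ) (t s : ℕ → ℕ) : Prop :=
  ∀ n, B (s n) ⊆ B (t n) ∧ (s n = t n ∨ s n ≤ h n) ∧ t (n + 1) = c n (s n)

/-- The pointwise maximum of a finite list of functions. -/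
def hbar (H : Set (ℕ → ℕ)) (l : List H) (n : ℕ) : ℕ := (l.map fun h => h.1 n).foldr max 0

lemma le_hbar {H : Set (ℕ → ℕ)} (l : List H) (h : H) (hl : h ∈ l) (n : ℕ) :
    h.1 n ≤ hbar H l n := by
  induction l with
  | nil => simp at hl
  | cons a l ih =>
    simp only [hbar, List.map_cons, List.foldr_cons]
    rcases List.mem_cons.1 hl with rfl | hl
    · exact le_max_left _ _
    · exact le_max_of_le_right (ih hl)

/-- Iteration of the strategy from stage `m` on, without free moves. -/
def iter (c : ℕ → ℕ → ℕ) (m : ℕ) : ℕ → ℕ → ℕ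
  | 0, s => s
  | j + 1, s => c (m + j) (iter c m j s)

theorem caseA [CompleteSpace X] {B : ℕ → Set X} (hB : PiBase B)
    (H : Set (ℕ → ℕ)) (hcov : CovOK H)
    (hunb : ∀ g : ℕ → ℕ, ∃ h ∈ H, ∀ N, ∃ n ≥ N, g n < h n)
    {J : Type} (hJ : CovOK J) (k : J → ℕ) (F : ∀ j, Set (Fin (k j) → X))
    (hF : ∀ j, IsNowhereDense (F j)) :
    ∃ A : Set X, (∀ U : Set X, IsOpen U → U.Nonempty → ¬ IsMeagre (A ∩ U)) ∧
      ∀ j, ∀ y : Fin (k j) → X, Function.Injective y → (∀ a, y a ∈ A) → y ∉ F j := by
  classical
  -- the index type of all requirements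
  have hcard : CovOK (J × List H × ℕ × ℕ) := by
    apply CovOK.of_card_le_max (J₁ := J) (J₂ := H) _ hJ hcov
    rw [Cardinal.mk_prod, Cardinal.mk_prod, Cardinal.mk_prod]
    simp only [Cardinal.lift_id, Cardinal.mk_nat, Cardinal.aleph0_mul_aleph0]
    have hl : #(List H) ≤ max ℵ₀ #H := Cardinal.mk_list_le_max _
    have h1 : #(List H) * ℵ₀ ≤ max ℵ₀ (max #J #H) := by
      refine (Cardinal.mul_le_max _ _).trans ?_
      refine max_le (max_le ?_ (le_max_left _ _)) (le_max_left _ _)
      exact hl.trans (max_le_max le_rfl (le_max_right _ _))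
    refine (Cardinal.mul_le_max _ _).trans ?_
    refine max_le (max_le ?_ h1) (le_max_left _ _)
    exact (le_max_left _ _).trans (le_max_right _ _)
  obtain ⟨c, hc, htreat⟩ := exists_generic_strat hB hcard
    (fun p => k p.1) (fun p => F p.1) (fun p => hF p.1)
    (fun p => hbar H p.2.1) (fun p => p.2.2.1) (fun p => p.2.2.2)
  refine ⟨{y | ∃ h ∈ H, ∃ t s : ℕ → ℕ, IsRun B c h t s ∧ ∀ n, y ∈ B (t n)}, ?_, ?_⟩
  · -- nowhere meagre
    intro U hU hUne hmeag
    obtain ⟨K, hK1, hK2⟩ := IsMeagre_exists_seq hmeag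
    obtain ⟨r, hr⟩ := hB.exists_subset U hU hUne
    choose f hf1 hf2 using fun n s => hB.exists_avoid hK1 s n
    -- a function bounding all bad functions
    let g : ℕ → ℕ := fun n => (Finset.range (n + 1)).sup fun m =>
      (Finset.range (n + 1)).sup fun w => f n (iter c m (n - m) w)
    obtain ⟨h, hH, hh⟩ := hunb g
    -- the run
    let st : ℕ → ℕ → ℕ := fun n t => if f n t ≤ h n then f n t else t
    let t : ℕ → ℕ := fun n => Nat.rec r (fun n tn => c n (st n tn)) n
    have ht0 : t 0 = r := rfl
    have htsucc : ∀ n, t (n + 1) = c n (st n (t n)) := fun n => rfl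
    have hrun : IsRun B c h t (fun n => st n (t n)) := by
      intro n
      refine ⟨?_, ?_, htsucc n⟩
      · by_cases hfn : f n (t n) ≤ h n
        · simp only [st, if_pos hfn]; exact hf1 n (t n)
        · simp only [st, if_neg hfn]; exact subset_rfl
      · by_cases hfn : f n (t n) ≤ h n
        · simp only [st, if_pos hfn]; exact Or.inr hfn
        · exact Or.inl (by simp only [st, if_neg hfn])
    have hfreq : ∀ N, ∃ n ≥ N, f n (t n) ≤ h n := by
      intro N
      by_contra hcon
      push Not at hcon
      have hit : ∀ j, t (N + j) = iter c N j (t N) := by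
        intro j
        induction j with
        | zero => rfl
        | succ j ih =>
          have h1 : st (N + j) (t (N + j)) = t (N + j) := by
            have := hcon (N + j) (by omega)
            simp only [st, if_neg (not_le.2 this)]
          calc t (N + (j + 1)) = c (N + j) (st (N + j) (t (N + j))) := htsucc (N + j)
            _ = c (N + j) (t (N + j)) := by rw [h1]
            _ = iter c N (j + 1) (t N) := by rw [ih]; rfl
      obtain ⟨n, hn1, hn2⟩ := hh (max N (t N))
      have hnN : N ≤ n := (le_max_left _ _).trans hn1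
      have hnt : t N ≤ n := (le_max_right _ _).trans hn1
      have h1 := hcon n hnN
      have h2 : f n (t n) ≤ g n := by
        have h3 : t n = iter c N (n - N) (t N) := by
          have := hit (n - N)
          rwa [Nat.add_sub_cancel' hnN] at this
        rw [h3]
        have h4 : f n (iter c N (n - N) (t N)) ≤
            (Finset.range (n + 1)).sup fun w => f n (iter c N (n - N) w) :=
          Finset.le_sup (f := fun w => f n (iter c N (n - N) w))
            (Finset.mem_range.2 (by omega))
        refine h4.trans ?_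
        exact Finset.le_sup (f := fun m => (Finset.range (n + 1)).sup fun w =>
          f n (iter c m (n - m) w)) (Finset.mem_range.2 (by omega))
      omega
    have hsub : ∀ n, B (t (n + 1)) ⊆ B (st n (t n)) := fun n => by
      rw [htsucc]; exact subset_closure.trans (hc n _).1
    obtain ⟨y, hy⟩ := exists_limit hB t
      (fun m => by rw [htsucc]; exact (hc m _).1.trans (hrun m).1)
      (fun m => by rw [htsucc]; exact (hc m _).2)
    have hyA : y ∈ {y | ∃ h ∈ H, ∃ t s : ℕ → ℕ, IsRun B c h t s ∧ ∀ n, y ∈ B (t n)} ∩ U :=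
      ⟨⟨h, hH, t, _, hrun, hy⟩, hr (ht0 ▸ hy 0)⟩
    obtain ⟨i, hi⟩ := Set.mem_iUnion.1 (hK2 hyA)
    obtain ⟨n, hn1, hn2⟩ := hfreq i
    have h1 : y ∈ B (f n (t n)) := by
      have := hsub n (hy (n + 1))
      simpa only [st, if_pos hn2] using this
    exact Set.disjoint_left.1 (hf2 n (t n) i hn1) h1 hi
  · -- free
    intro j y hy hyA
    choose h hH t s hrun hyt using hyA
    obtain ⟨N, hN⟩ := exists_pow_lt_dist y hy
    let l : List H := List.ofFn fun a => ⟨h a, hH a⟩
    let w : ℕ := Finset.univ.sup fun a => t a N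
    obtain ⟨i, hi⟩ := htreat (j, l, N, w)
    have hle : ∀ a n, h a n ≤ hbar H l n := fun a n =>
      le_hbar l ⟨h a, hH a⟩ (List.mem_ofFn.2 ⟨a, rfl⟩) n
    have key : ∀ a, ∀ i', s a (N + i') ≤ reach c (hbar H l) N w i' := by
      intro a i'
      induction i' with
      | zero =>
        rcases ((hrun a) N).2.1 with h1 | h1
        · refine le_max_of_le_left ?_
          rw [Nat.add_zero, h1]
          exact Finset.le_sup (f := fun a => t a N) (Finset.mem_univ a)
        · exact le_max_of_le_right (h1.trans (hle a N))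
      | succ i' ih =>
        rcases ((hrun a) (N + (i' + 1))).2.1 with h1 | h1
        · rw [h1]
          have h2 : t a (N + (i' + 1)) = c (N + i') (s a (N + i')) := ((hrun a) (N + i')).2.2
          rw [h2]
          exact le_reach_succ c _ N w i' _ ih
        · exact (h1.trans (hle a _)).trans (le_reach_h c _ N w (i' + 1))
    refine hi (fun a => s a (N + i)) ?_ (fun a => key a i) y ?_
    · intro a b hab
      by_contra hne
      have h1 : y a ∈ B (c (N + i) (s a (N + i))) := by
        have := hyt a (N + i + 1)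
        rwa [((hrun a) (N + i)).2.2] at this
      have h2 : y b ∈ B (c (N + i) (s a (N + i))) := by
        have := hyt b (N + i + 1)
        rw [((hrun b) (N + i)).2.2] at this
        simp only at hab
        rwa [hab]
      have h3 := (hc (N + i) (s a (N + i))).2 _ h1 _ h2
      have h4 := hN (N + i) (by omega) a b hne
      linarith
    · intro a
      have := hyt a (N + i + 1)
      rwa [((hrun a) (N + i)).2.2] at this

end

end Pool.Agent.H76
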