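import Mathlib
import Pool.Agent.H76.CaseA

/-!
Free sets when every family of functions with fewer than cov(meager) members is bounded.
-/

set_option autoImplicit false

open Set Cardinal Filter Topology

namespace Pool.Agent.H76

section

variable {X : Type} [MetricSpace X]

lemma iter_subset {B : ℕ → Set X} {c : ℕ → ℕ → ℕ} (hc : ValidStrat B c) (m s : ℕ) {i j : ℕ}
    (hij : i ≤ j) : B (iter c m j s) ⊆ B (iter c m i s) := by
  induction j, hij using Nat.le_induction with
  | base => exact subset_rfl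
  | succ j _ ih => exact (subset_closure.trans (hc _ _).1).trans ih

lemma iter_le_reach (c : ℕ → ℕ → ℕ) (h : ℕ → ℕ) (m w s : ℕ) (hs : s ≤ w) (j : ℕ) :
    iter c m j s ≤ reach c h m w j := by
  induction j with
  | zero => exact le_max_of_le_left hs
  | succ j ih => exact le_reach_succ c h m w j _ ih

/-- The levels used for the ultrafilter construction. -/
def lev (c : ℕ → ℕ → ℕ) (g : ℕ → ℕ) : ℕ → ℕ
  | 0 => 0
  | k + 1 => max (lev c g k + 1)
      ((Finset.range (lev c g k + 1)).sup (iter c (lev c g k) (g (lev c g k) + 1)))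

lemma lev_lt (c : ℕ → ℕ → ℕ) (g : ℕ → ℕ) (k : ℕ) : lev c g k < lev c g (k + 1) :=
  le_max_left (lev c g k + 1) _

lemma lev_strictMono (c : ℕ → ℕ → ℕ) (g : ℕ → ℕ) : StrictMono (lev c g) :=
  strictMono_nat_of_lt_succ (lev_lt c g)

lemma le_lev (c : ℕ → ℕ → ℕ) (g : ℕ → ℕ) (k : ℕ) : k ≤ lev c g k :=
  (lev_strictMono c g).le_apply

lemma iter_le_lev (c : ℕ → ℕ → ℕ) (g : ℕ → ℕ) (k s : ℕ) (hs : s ≤ lev c g k) :
    iter c (lev c g k) (g (lev c g k) + 1) s ≤ lev c g (k + 1) :=
  le_max_of_le_right (Finset.le_sup (f := iter c (lev c g k) (g (lev c g k) + 1))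
    (Finset.mem_range.2 (by omega)))

/-- The open set of points that follow the strategy at block `k`. -/
def blockSet (B : ℕ → Set X) (c : ℕ → ℕ → ℕ) (g : ℕ → ℕ) (k : ℕ) : Set X :=
  {y | ∃ s ≤ lev c g k, y ∈ B (iter c (lev c g k) (g (lev c g k) + 1) s)}

lemma exists_follow {B : ℕ → Set X} {c : ℕ → ℕ → ℕ} (hc : ValidStrat B c) (g : ℕ → ℕ)
    (k k' : ℕ) (hkk : k < k') (s : ℕ) (hs : s ≤ lev c g k) :
    ∃ t ≤ lev c g k', closure (B t) ⊆ B s ∧
      (∀ x ∈ B t, ∀ y ∈ B t, dist x y ≤ (1 / 2 : ℝ) ^ k) ∧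
      ∀ i, k ≤ i → i < k' → B t ⊆ blockSet B c g i := by
  induction k', hkk using Nat.le_induction with
  | base =>
    refine ⟨iter c (lev c g k) (g (lev c g k) + 1) s, iter_le_lev c g k s hs, ?_, ?_, ?_⟩
    · refine ((hc (lev c g k + g (lev c g k)) _).1).trans ?_
      exact iter_subset hc _ _ (Nat.zero_le _)
    · intro x hx y hy
      refine ((hc (lev c g k + g (lev c g k)) _).2 x hx y hy).trans ?_
      apply pow_le_pow_of_le_one (by norm_num) (by norm_num)
      have := le_lev c g k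
      omega
    · intro i hi1 hi2
      obtain rfl : i = k := by omega
      exact fun y hy => ⟨s, hs, hy⟩
  | succ n hn ih =>
    obtain ⟨t, ht1, ht2, ht3, ht4⟩ := ih
    have hsub : B (iter c (lev c g n) (g (lev c g n) + 1) t) ⊆ B t :=
      iter_subset hc _ _ (Nat.zero_le _)
    refine ⟨iter c (lev c g n) (g (lev c g n) + 1) t, iter_le_lev c g n t ht1, ?_, ?_, ?_⟩
    · exact (closure_mono hsub).trans ht2
    · exact fun x hx y hy => ht3 x (hsub hx) y (hsub hy)
    · intro i hi1 hi2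
      rcases Nat.lt_or_eq_of_le (Nat.le_of_lt_succ hi2) with h | h
      · exact hsub.trans (ht4 i hi1 h)
      · subst h
        exact fun y hy => ⟨t, ht1, hy⟩

theorem caseB [CompleteSpace X] {B : ℕ → Set X} (hB : PiBase B)
    (hbdd : ∀ H : Set (ℕ → ℕ), CovOK H → ∃ g : ℕ → ℕ, ∀ h ∈ H, ∃ N, ∀ n ≥ N, h n ≤ g n)
    {J : Type} (hJ : CovOK J) (k : J → ℕ) (F : ∀ j, Set (Fin (k j) → X))
    (hF : ∀ j, IsNowhereDense (F j)) :
    ∃ A : Set X, (∀ U : Set X, IsOpen U → U.Nonempty → ¬ IsMeagre (A ∩ U)) ∧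
      ∀ j, ∀ y : Fin (k j) → X, Function.Injective y → (∀ a, y a ∈ A) → y ∉ F j := by
  classical
  have hcard : CovOK (J × ℕ) := by
    apply CovOK.of_card_le _ hJ
    rw [Cardinal.mk_prod]
    simp only [Cardinal.lift_id, Cardinal.mk_nat]
    refine (Cardinal.mul_le_max _ _).trans ?_
    exact max_le (max_le (le_max_right _ _) (le_max_left _ _)) (le_max_left _ _)
  obtain ⟨c, hc, htreat⟩ := exists_generic_strat hB hcard
    (fun p => k p.1) (fun p => F p.1) (fun p => hF p.1)
    (fun _ _ => 0) (fun p => p.2) (fun p => p.2)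
  choose hh hhh using fun j m => htreat (j, m)
  -- dominate all the waiting times
  have hrange : CovOK (Set.range hh) := by
    apply CovOK.of_card_le _ hJ
    exact Cardinal.mk_range_le.trans (le_max_right _ _)
  obtain ⟨g, hg⟩ := hbdd (Set.range hh) hrange
  refine ⟨{y | ∀ᶠ i in (hyperfilter ℕ : Filter ℕ), y ∈ blockSet B c g i}, ?_, ?_⟩
  · -- nowhere meagre
    intro U hU hUne hmeag
    obtain ⟨K, hK1, hK2⟩ := IsMeagre_exists_seq hmeag
    obtain ⟨r, hr⟩ := hB.exists_subset U hU hUne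
    choose f hf1 hf2 using fun n s => hB.exists_avoid hK1 s n
    -- block ends
    have hkk : ∀ m i, ∃ i' > i, ∀ s ≤ lev c g i, f m s ≤ lev c g i' := by
      intro m i
      refine ⟨max (i + 1) ((Finset.range (lev c g i + 1)).sup (f m)),
        lt_of_lt_of_le (Nat.lt_succ_self i) (le_max_left _ _), ?_⟩
      intro s hs
      refine le_trans ?_ (le_lev c g _)
      exact le_max_of_le_right (Finset.le_sup (f := f m) (Finset.mem_range.2 (by omega)))
    choose kk hkk1 hkk2 using hkk
    let κ : ℕ → ℕ := fun m => Nat.rec r (fun m i => kk m i) m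
    have hκ0 : κ 0 = r := rfl
    have hκs : ∀ m, κ (m + 1) = kk m (κ m) := fun m => rfl
    have hκlt : ∀ m, κ m < κ (m + 1) := fun m => by rw [hκs]; exact hkk1 m (κ m)
    have hκmono : StrictMono κ := strictMono_nat_of_lt_succ hκlt
    -- choose the parity of the blocks that follow the strategy
    have hpar : ∃ par < 2, {i | ∀ m, κ m ≤ i → i < κ (m + 1) → m % 2 = par} ∈
        (hyperfilter ℕ : Filter ℕ) := by
      have huniv : ({i | ∀ m, κ m ≤ i → i < κ (m + 1) → m % 2 = 0} ∪
          {i | ∀ m, κ m ≤ i → i < κ (m + 1) → m % 2 = 1} : Set ℕ) = Set.univ := by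
        apply Set.eq_univ_of_forall
        intro i
        rcases Classical.em (∃ m, κ m ≤ i ∧ i < κ (m + 1)) with hi | hi
        · obtain ⟨m, hm1, hm2⟩ := hi
          have huniq : ∀ m', κ m' ≤ i → i < κ (m' + 1) → m' = m := by
            intro m' h1 h2
            have h3 : m' < m + 1 := hκmono.lt_iff_lt.1 (h1.trans_lt hm2)
            have h4 : m < m' + 1 := hκmono.lt_iff_lt.1 (hm1.trans_lt h2)
            omega
          rcases Nat.mod_two_eq_zero_or_one m with h | h
          · left; intro m' h1 h2; rw [huniq m' h1 h2, h]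
          · right; intro m' h1 h2; rw [huniq m' h1 h2, h]
        · left
          intro m h1 h2
          exact (hi ⟨m, h1, h2⟩).elim
      have hmem : ({i | ∀ m, κ m ≤ i → i < κ (m + 1) → m % 2 = 0} ∪
          {i | ∀ m, κ m ≤ i → i < κ (m + 1) → m % 2 = 1} : Set ℕ) ∈ hyperfilter ℕ := by
        rw [huniv]; exact Filter.univ_mem
      rcases Ultrafilter.union_mem_iff.1 hmem with h | h
      · exact ⟨0, by norm_num, h⟩
      · exact ⟨1, by norm_num, h⟩
    obtain ⟨par, hpar2, hpar⟩ := hpar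
    -- one block
    have hstep : ∀ m, ∀ s : {s // s ≤ lev c g (κ m)}, ∃ t : {t // t ≤ lev c g (κ (m + 1))},
        B t ⊆ B s ∧
        (m % 2 = par → closure (B t) ⊆ B s ∧
          (∀ x ∈ B t, ∀ y ∈ B t, dist x y ≤ (1 / 2 : ℝ) ^ κ m) ∧
          ∀ i, κ m ≤ i → i < κ (m + 1) → B t ⊆ blockSet B c g i) ∧
        (m % 2 ≠ par → ∀ i ≤ m, Disjoint (B t) (K i)) := by
      intro m s
      by_cases hm : m % 2 = par
      · obtain ⟨t, ht1, ht2, ht3, ht4⟩ := exists_follow hc g (κ m) (κ (m + 1)) (hκlt m) s.1 s.2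
        exact ⟨⟨t, ht1⟩, subset_closure.trans ht2, fun _ => ⟨ht2, ht3, ht4⟩,
          fun h => (h hm).elim⟩
      · refine ⟨⟨f m s.1, ?_⟩, hf1 m s.1, fun h => (hm h).elim, fun _ => hf2 m s.1⟩
        rw [hκs]
        exact hkk2 m (κ m) s.1 s.2
    choose nxt hn1 hn2 hn3 using hstep
    have hr0 : r ≤ lev c g (κ 0) := by rw [hκ0]; exact le_lev c g r
    let S : ∀ m, {s // s ≤ lev c g (κ m)} := fun m => Nat.rec ⟨r, hr0⟩ (fun m s => nxt m s) m
    have hS0 : (S 0).1 = r := rfl
    have hSs : ∀ m, S (m + 1) = nxt m (S m) := fun m => rfl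
    have hSmono : ∀ m, B (S (m + 1)).1 ⊆ B (S m).1 := fun m => by rw [hSs]; exact hn1 m (S m)
    have hSmono' : ∀ m m', m ≤ m' → B (S m').1 ⊆ B (S m).1 := by
      intro m m' h
      induction m', h using Nat.le_induction with
      | base => exact subset_rfl
      | succ n _ ih => exact (hSmono n).trans ih
    -- one of the two consecutive blocks follows the strategy
    have htwo : ∀ m, closure (B (S (2 * (m + 1))).1) ⊆ B (S (2 * m)).1 ∧
        ∀ x ∈ B (S (2 * (m + 1))).1, ∀ y ∈ B (S (2 * (m + 1))).1,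
          dist x y ≤ (1 / 2 : ℝ) ^ m := by
      intro m
      have hκm : ∀ i, 2 * m ≤ i → (1 / 2 : ℝ) ^ κ i ≤ (1 / 2 : ℝ) ^ m := by
        intro i hi
        apply pow_le_pow_of_le_one (by norm_num) (by norm_num)
        have := hκmono.le_apply (x := i)
        omega
      have h2m : 2 * (m + 1) = 2 * m + 1 + 1 := by ring
      rcases (show par = 0 ∨ par = 1 by omega) with h | h
      · have h0 : (2 * m) % 2 = par := by omega
        obtain ⟨h1, h2, _⟩ := hn2 (2 * m) (S (2 * m)) h0
        have h3 : B (S (2 * (m + 1))).1 ⊆ B (nxt (2 * m) (S (2 * m))).1 := by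
          rw [h2m]; exact (hSmono (2 * m + 1)).trans (by rw [hSs])
        exact ⟨(closure_mono h3).trans h1,
          fun x hx y hy => (h2 x (h3 hx) y (h3 hy)).trans (hκm _ le_rfl)⟩
      · have h0 : (2 * m + 1) % 2 = par := by omega
        obtain ⟨h1, h2, _⟩ := hn2 (2 * m + 1) (S (2 * m + 1)) h0
        have h3 : S (2 * (m + 1)) = nxt (2 * m + 1) (S (2 * m + 1)) := rfl
        rw [h3]
        exact ⟨h1.trans (hSmono (2 * m)),
          fun x hx y hy => (h2 x hx y hy).trans (hκm (2 * m + 1) (by omega))⟩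
    obtain ⟨y, hy⟩ := exists_limit hB (fun m => (S (2 * m)).1) (fun m => (htwo m).1)
      (fun m => (htwo m).2)
    have hyS : ∀ m, y ∈ B (S m).1 := fun m => hSmono' m (2 * m) (by omega) (hy m)
    have hyA : y ∈ {y | ∀ᶠ i in (hyperfilter ℕ : Filter ℕ), y ∈ blockSet B c g i} := by
      have hge : ∀ᶠ i in (hyperfilter ℕ : Filter ℕ), κ 0 ≤ i := by
        have : ∀ᶠ i in (atTop : Filter ℕ), κ 0 ≤ i := eventually_ge_atTop _
        rw [← Nat.cofinite_eq_atTop] at this
        exact Filter.hyperfilter_le_cofinite this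
      show ∀ᶠ i in (hyperfilter ℕ : Filter ℕ), y ∈ blockSet B c g i
      filter_upwards [hpar, hge] with i hi1 hi2
      -- the block of `i`
      have hex : ∃ m, i < κ (m + 1) := ⟨i, lt_of_lt_of_le (Nat.lt_succ_self i)
        (hκmono.le_apply (x := i + 1))⟩
      have hlt := Nat.find_spec hex
      have hle : κ (Nat.find hex) ≤ i := by
        rcases Nat.eq_zero_or_pos (Nat.find hex) with h | h
        · rw [h]; exact hi2
        · have := Nat.find_min hex (m := Nat.find hex - 1) (by omega)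
          rw [Nat.sub_add_cancel h] at this
          omega
      have hm := hi1 _ hle hlt
      exact (hn2 _ (S (Nat.find hex)) hm).2.2 i hle hlt (hyS (Nat.find hex + 1))
    obtain ⟨i, hi⟩ := Set.mem_iUnion.1 (hK2 ⟨hyA, hr (hS0 ▸ hyS 0)⟩)
    -- a block of the other parity after `i`
    obtain ⟨m, hm1, hm2⟩ : ∃ m ≥ i, m % 2 ≠ par := by
      rcases (show i % 2 = par ∨ i % 2 ≠ par from em _) with h | h
      · exact ⟨i + 1, by omega, by omega⟩
      · exact ⟨i, le_rfl, h⟩
    exact Set.disjoint_left.1 (hn3 m (S m) hm2 i hm1) (hyS (m + 1)) hi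
  · -- free
    intro j y hy hyA
    obtain ⟨N, hN⟩ := exists_pow_lt_dist y hy
    obtain ⟨N', hN'⟩ := hg (hh j) ⟨j, rfl⟩
    have h1 : ∀ᶠ i in (hyperfilter ℕ : Filter ℕ), ∀ a, y a ∈ blockSet B c g i :=
      eventually_all.2 hyA
    have h2 : ∀ᶠ i in (hyperfilter ℕ : Filter ℕ), max N N' ≤ i := by
      have : ∀ᶠ i in (atTop : Filter ℕ), max N N' ≤ i := eventually_ge_atTop _
      rw [← Nat.cofinite_eq_atTop] at this
      exact Filter.hyperfilter_le_cofinite this
    obtain ⟨i, hi1, hi2⟩ := (h1.and h2).exists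
    choose σ hσ1 hσ2 using hi1
    have hlev : i ≤ lev c g i := le_lev c g i
    have hle : hh j (lev c g i) ≤ g (lev c g i) :=
      hN' _ ((le_max_right _ _).trans (hi2.trans hlev))
    have hmem : ∀ a, y a ∈ B (c (lev c g i + hh j (lev c g i))
        (iter c (lev c g i) (hh j (lev c g i)) (σ a))) := fun a =>
      iter_subset hc (lev c g i) (σ a) (i := hh j (lev c g i) + 1) (by omega) (hσ2 a)
    refine hhh j (lev c g i)
      (fun a => iter c (lev c g i) (hh j (lev c g i)) (σ a)) ?_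
      (fun a => iter_le_reach c _ _ _ _ (hσ1 a) _) y hmem
    intro a b hab
    by_contra hne
    have h3 := hmem a
    have h4 := hmem b
    simp only at hab
    rw [← hab] at h4
    have h5 := (hc _ _).2 _ h3 _ h4
    have h6 := hN (lev c g i + hh j (lev c g i)) (by
      have : N ≤ i := (le_max_left _ _).trans hi2
      omega) a b hne
    linarith

end

end Pool.Agent.H76
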